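import Pool.Agent.Q266.VG.Stm

set_option autoImplicit false

namespace Pool.Agent.Q234.VG

open Pool.Agent.Q266.VG
open scoped commutatorElement

/-- pairwise commuting modulo a normal subgroup extends to the generated subgroups -/
theorem comm_mem_of_closure {G : Type} [Group G] (N : Subgroup G) [N.Normal] (S : Set G)
    (h : ∀ a ∈ S, ∀ b ∈ S, ⁅a, b⁆ ∈ N) :
    ∀ g ∈ Subgroup.closure S, ∀ k ∈ Subgroup.closure S, ⁅g, k⁆ ∈ N := by
  have key : ∀ a b : G, ⁅a, b⁆ ∈ N ↔
      (QuotientGroup.mk' N a) * (QuotientGroup.mk' N b) =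
        (QuotientGroup.mk' N b) * (QuotientGroup.mk' N a) := by
    intro a b
    rw [← commutatorElement_eq_one_iff_mul_comm, ← map_commutatorElement]
    exact (QuotientGroup.eq_one_iff (⁅a, b⁆ : G)).symm
  have h1 : ∀ b ∈ S, ∀ g ∈ Subgroup.closure S, ⁅g, b⁆ ∈ N := by
    intro b hb
    have : Subgroup.closure S ≤
        (Subgroup.centralizer {QuotientGroup.mk' N b}).comap (QuotientGroup.mk' N) := by
      rw [Subgroup.closure_le]
      intro a ha
      rw [SetLike.mem_coe, Subgroup.mem_comap, Subgroup.mem_centralizer_singleton_iff]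
      exact ((key a b).1 (h a ha b hb))
    intro g hg
    have := this hg
    rw [Subgroup.mem_comap, Subgroup.mem_centralizer_singleton_iff] at this
    exact (key g b).2 this
  intro g hg
  have : Subgroup.closure S ≤
      (Subgroup.centralizer {QuotientGroup.mk' N g}).comap (QuotientGroup.mk' N) := by
    rw [Subgroup.closure_le]
    intro b hb
    rw [SetLike.mem_coe, Subgroup.mem_comap, Subgroup.mem_centralizer_singleton_iff]
    exact ((key g b).1 (h1 b hb g hg)).symm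
  intro k hk
  have := this hk
  rw [Subgroup.mem_comap, Subgroup.mem_centralizer_singleton_iff] at this
  exact (key g k).2 this.symm

theorem ds_one : derivedSeries F 1 = gam F 1 := by
  rw [derivedSeries_one]; exact Subgroup.top_lowerCentralSeries_one.symm

theorem D2_eq : D2 F = ⁅gam F 1, gam F 1⁆ := by
  show derivedSeries F 2 = _
  rw [derivedSeries_succ, ds_one]

theorem gentwo : S_GEN → S_LCS → S_GENTWO := by
  intro hgen hlcs
  unfold S_GENTWO
  set Sg : Set F := {g | ∃ a b c d : ℕ, g = Q FreeGroup.of a b c d} ∪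
    {g | ∃ a b c d e : ℕ, g = T FreeGroup.of a b c d e} with hSg
  set K : Subgroup F := ⁅D2 F, (⊤ : Subgroup F)⁆ ⊔ (gam F 5 ⊓ D2 F) with hK
  set N : Subgroup F := Subgroup.closure Sg ⊔ K with hN
  have anti : Antitone (gam F) := fun i j hij => Subgroup.lowerCentralSeries_antitone _ hij
  -- basic members of `gam F 1`
  have hof : ∀ y z : ℕ, ⁅(FreeGroup.of y : F), FreeGroup.of z⁆ ∈ gam F 1 := by
    intro y z
    have : gam F 1 = ⁅(⊤ : Subgroup F), ⊤⁆ := by
      rw [← ds_one, derivedSeries_one]; rfl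
    rw [this]
    exact Subgroup.commutator_mem_commutator (Subgroup.mem_top _) (Subgroup.mem_top _)
  have hof2 : ∀ y z k : ℕ, ⁅⁅(FreeGroup.of y : F), FreeGroup.of z⁆, FreeGroup.of k⁆ ∈ gam F 2 := by
    intro y z k
    have : gam F 2 = ⁅gam F 1, (⊤ : Subgroup F)⁆ := Subgroup.lowerCentralSeries_succ _ _
    rw [this]
    exact Subgroup.commutator_mem_commutator (hof y z) (Subgroup.mem_top _)
  have hD : ∀ g ∈ gam F 1, ∀ h ∈ gam F 1, ⁅g, h⁆ ∈ D2 F := by
    intro g hg h hh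
    rw [D2_eq]
    exact Subgroup.commutator_mem_commutator hg hh
  have hDN : (D2 F).Normal := derivedSeries_normal F 2
  have hcl : ⁅D2 F, (⊤ : Subgroup F)⁆ ≤ D2 F := Subgroup.commutator_le_left _ _
  -- `N ≤ D2 F`
  have hND : N ≤ D2 F := by
    refine sup_le ((Subgroup.closure_le _).2 ?_) (sup_le hcl inf_le_right)
    rintro g (⟨a, b, c, d, rfl⟩ | ⟨a, b, c, d, e, rfl⟩)
    · exact hD _ (hof a b) _ (hof c d)
    · exact hD _ (hof a b) _ (anti (by norm_num : 1 ≤ 2) (hof2 c d e))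
  have hcN : ⁅D2 F, (⊤ : Subgroup F)⁆ ≤ N := le_sup_left.trans le_sup_right
  have hNn : N.Normal := by
    constructor
    intro n hn g
    have h1 : ⁅g, n⁆ ∈ N := by
      apply hcN
      rw [Subgroup.commutator_comm]
      exact Subgroup.commutator_mem_commutator (Subgroup.mem_top _) (hND hn)
    have h2 : g * n * g⁻¹ = ⁅g, n⁆ * n := by
      rw [commutatorElement_def]; group
    rw [h2]
    exact N.mul_mem h1 hn
  -- generators
  set A : Set F := {g | ∃ y z : ℕ, g = ⁅(FreeGroup.of y : F), FreeGroup.of z⁆} with hA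
  set B : Set F := {g | ∃ y z k : ℕ, g = ⁅⁅(FreeGroup.of y : F), FreeGroup.of z⁆, FreeGroup.of k⁆}
    with hB
  have hle : gam F 1 ≤ Subgroup.closure (A ∪ B ∪ (gam F 3 : Set F)) := by
    refine (hgen 0).trans (sup_le ?_ ((hgen 1).trans (sup_le ?_ ?_)))
    · apply Subgroup.closure_mono
      rintro g ⟨y, z, Z, hZ, rfl⟩
      obtain rfl := List.length_eq_zero_iff.1 hZ
      exact Or.inl (Or.inl ⟨y, z, rfl⟩)
    · apply Subgroup.closure_mono
      rintro g ⟨y, z, Z, hZ, rfl⟩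
      obtain ⟨k, rfl⟩ := List.length_eq_one_iff.1 hZ
      exact Or.inl (Or.inr ⟨y, z, k, rfl⟩)
    · intro g hg
      exact Subgroup.subset_closure (Or.inr hg)
  have h5 : ∀ g h : F, g ∈ gam F 1 → h ∈ gam F 1 → ⁅g, h⁆ ∈ gam F 5 → ⁅g, h⁆ ∈ N := by
    intro g h hg hh h5
    exact (le_sup_right.trans le_sup_right : gam F 5 ⊓ D2 F ≤ N) ⟨h5, hD g hg h hh⟩
  have hcomm : ∀ m n : ℕ, m + n + 1 = 5 → ∀ g ∈ gam F m, ∀ h ∈ gam F n, ⁅g, h⁆ ∈ gam F 5 := by
    intro m n hmn g hg h hh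
    have := hlcs F m n (Subgroup.commutator_mem_commutator hg hh)
    rwa [hmn] at this
  have hAm : ∀ g ∈ A, g ∈ gam F 1 := by rintro g ⟨y, z, rfl⟩; exact hof y z
  have hBm : ∀ g ∈ B, g ∈ gam F 2 := by rintro g ⟨y, z, k, rfl⟩; exact hof2 y z k
  have h21 : ∀ g ∈ gam F 2, g ∈ gam F 1 := fun g hg => anti (by norm_num : 1 ≤ 2) hg
  have h31 : ∀ g ∈ gam F 3, g ∈ gam F 1 := fun g hg => anti (by norm_num : 1 ≤ 3) hg
  have hAB : ∀ g ∈ A, ∀ h ∈ B, ⁅g, h⁆ ∈ N := by
    rintro g ⟨a, b, rfl⟩ h ⟨c, d, e, rfl⟩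
    exact (le_sup_left : Subgroup.closure Sg ≤ N)
      (Subgroup.subset_closure (Or.inr ⟨a, b, c, d, e, rfl⟩))
  have hinv : ∀ g h : F, ⁅g, h⁆ ∈ N → ⁅h, g⁆ ∈ N := by
    intro g h hgh
    rw [← commutatorElement_inv]
    exact N.inv_mem hgh
  have hpair : ∀ a ∈ A ∪ B ∪ (gam F 3 : Set F), ∀ b ∈ A ∪ B ∪ (gam F 3 : Set F), ⁅a, b⁆ ∈ N := by
    have hS1 : ∀ a ∈ A ∪ B ∪ (gam F 3 : Set F), a ∈ gam F 1 := by
      rintro a ((ha | ha) | ha)
      · exact hAm a ha
      · exact h21 a (hBm a ha)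
      · exact h31 a ha
    have h3 : ∀ a ∈ A ∪ B ∪ (gam F 3 : Set F), ∀ b ∈ gam F 3, ⁅a, b⁆ ∈ N := by
      intro a ha b hb
      exact h5 a b (hS1 a ha) (h31 b hb) (hcomm 1 3 (by norm_num) a (hS1 a ha) b hb)
    rintro a ha b hb
    rcases hb with (hb | hb) | hb
    · rcases ha with (ha | ha) | ha
      · obtain ⟨c, d, rfl⟩ := ha
        obtain ⟨e, f, rfl⟩ := hb
        exact (le_sup_left : Subgroup.closure Sg ≤ N)
          (Subgroup.subset_closure (Or.inl ⟨c, d, e, f, rfl⟩))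
      · exact hinv _ _ (hAB b hb a ha)
      · exact hinv _ _ (h3 b (Or.inl (Or.inl hb)) a ha)
    · rcases ha with (ha | ha) | ha
      · exact hAB a ha b hb
      · exact h5 a b (h21 a (hBm a ha)) (h21 b (hBm b hb))
          (hcomm 2 2 (by norm_num) a (hBm a ha) b (hBm b hb))
      · exact hinv _ _ (h3 b (Or.inl (Or.inr hb)) a ha)
    · exact h3 a ha b hb
  rw [D2_eq, Subgroup.commutator_le]
  intro g hg h hh
  exact comm_mem_of_closure N _ hpair g (hle hg) h (hle hh)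

end Pool.Agent.Q234.VG
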